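import Pool.Agent.Helper24.HW.Stmts

/-! Module CNJ of hw_mods: cycles of conjugate and inverse permutations. -/

namespace Pool.Agent.Helper42.HW

open Equiv Equiv.Perm Pool.Agent.Helper24.HW Pool.Agent.Helper24.HWPub Pool.Agent.Helper98.Gn

theorem CNJ : ST_CNJ := by
  intro X _ f g
  constructor
  · refine cyc_congr g (f * g) (g * f) ?_
    intro x
    simp [Perm.mul_apply]
  · unfold cyc
    refine Nat.card_congr (Quotient.congr (Equiv.refl X) ?_)
    intro a b
    exact sameCycle_inv

end Pool.Agent.Helper42.HW
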