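import Pool.Agent.Helper24.HW.Stmts

/-! Module SUM of hw_mods: cycles of a sum of permutations. -/

namespace Pool.Agent.Helper42.HW

open Equiv Equiv.Perm Pool.Agent.Helper24.HW Pool.Agent.Helper24.HWPub Pool.Agent.Helper98.Gn

theorem sumCongr_zpow {X Y : Type} (f : Perm X) (g : Perm Y) (n : ℤ) :
    (Perm.sumCongr f g) ^ n = Perm.sumCongr (f ^ n) (g ^ n) := by
  have := map_zpow (Perm.sumCongrHom X Y) (f, g) n
  simpa [Perm.sumCongrHom] using this.symm

theorem sc_inl {X Y : Type} (f : Perm X) (g : Perm Y) (x y : X) :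
    SameCycle (Perm.sumCongr f g) (Sum.inl x) (Sum.inl y) ↔ SameCycle f x y := by
  constructor
  · rintro ⟨n, hn⟩
    rw [sumCongr_zpow] at hn
    exact ⟨n, by simpa using hn⟩
  · rintro ⟨n, hn⟩
    refine ⟨n, ?_⟩
    rw [sumCongr_zpow]
    simpa using hn

theorem sc_inr {X Y : Type} (f : Perm X) (g : Perm Y) (x y : Y) :
    SameCycle (Perm.sumCongr f g) (Sum.inr x) (Sum.inr y) ↔ SameCycle g x y := by
  constructor
  · rintro ⟨n, hn⟩
    rw [sumCongr_zpow] at hn
    exact ⟨n, by simpa using hn⟩
  · rintro ⟨n, hn⟩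
    refine ⟨n, ?_⟩
    rw [sumCongr_zpow]
    simpa using hn

theorem sc_inl_inr {X Y : Type} (f : Perm X) (g : Perm Y) (x : X) (y : Y) :
    ¬ SameCycle (Perm.sumCongr f g) (Sum.inl x) (Sum.inr y) := by
  rintro ⟨n, hn⟩
  rw [sumCongr_zpow] at hn
  simp at hn

theorem sc_inr_inl {X Y : Type} (f : Perm X) (g : Perm Y) (x : Y) (y : X) :
    ¬ SameCycle (Perm.sumCongr f g) (Sum.inr x) (Sum.inl y) := by
  rintro ⟨n, hn⟩
  rw [sumCongr_zpow] at hn
  simp at hn

/-- the quotient of a sum -/
noncomputable def quotSum {X Y : Type} (f : Perm X) (g : Perm Y) :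
    Quotient (SameCycle.setoid (Perm.sumCongr f g)) ≃
      Quotient (SameCycle.setoid f) ⊕ Quotient (SameCycle.setoid g) where
  toFun := Quotient.lift
    (Sum.elim (fun x => Sum.inl (Quotient.mk (SameCycle.setoid f) x))
      (fun y => Sum.inr (Quotient.mk (SameCycle.setoid g) y))) (by
      rintro (a | a) (b | b) h
      · exact congrArg Sum.inl (Quotient.sound ((sc_inl f g a b).1 h))
      · exact absurd h (sc_inl_inr f g a b)
      · exact absurd h (sc_inr_inl f g a b)
      · exact congrArg Sum.inr (Quotient.sound ((sc_inr f g a b).1 h)))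
  invFun := Sum.elim
    (Quotient.lift (fun x => Quotient.mk (SameCycle.setoid (Perm.sumCongr f g)) (Sum.inl x))
      (fun a b h => Quotient.sound ((sc_inl f g a b).2 h)))
    (Quotient.lift (fun x => Quotient.mk (SameCycle.setoid (Perm.sumCongr f g)) (Sum.inr x))
      (fun a b h => Quotient.sound ((sc_inr f g a b).2 h)))
  left_inv := by
    intro q
    induction q using Quotient.ind with
    | _ a => rcases a with a | a <;> rfl
  right_inv := by
    rintro (q | q)
    · induction q using Quotient.ind with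
      | _ a => rfl
    · induction q using Quotient.ind with
      | _ a => rfl

theorem SUM : ST_SUM := by
  intro X Y _ _ f g
  unfold cyc
  rw [Nat.card_congr (quotSum f g), Nat.card_sum]

end Pool.Agent.Helper42.HW
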